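import Pool.Agent.H22.AR.Dft
import Pool.Agent.H70.G0.NFB

/-!
# Sums of exponentials with arbitrary coefficients

A sum of `R` exponentials with arbitrary complex coefficients, of mean square at most four on a
window, is near in mean square to a sum of `R'` exponentials with coefficients of norm at most one.
-/

set_option autoImplicit false

open Finset Pool.Agent.H6.N4D Pool.Agent.H3.BT

namespace Pool.Agent.H22.AR

/-- enumeration of a finite sum of exponentials -/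
lemma enum {ι : Type} [DecidableEq ι] (b : ι → ℂ) (β : ι → ℝ) (C : ℝ) (hC : 0 ≤ C)
    (A : Finset ι) : (∀ a ∈ A, ‖b a‖ ≤ C) → ∀ K, A.card ≤ K →
    ∃ (b' : ℕ → ℂ) (β' : ℕ → ℝ), (∀ t, ‖b' t‖ ≤ C) ∧ ∀ x : ℕ,
      ∑ t ∈ range K, b' t * ee (β' t * x) = ∑ a ∈ A, b a * ee (β a * x) := by
  induction A using Finset.induction_on with
  | empty =>
    intro _ K _
    exact ⟨fun _ => 0, fun _ => 0, fun _ => by simpa using hC, fun x => by simp⟩
  | insert a A ha ih =>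
    intro hb K hK
    rw [card_insert_of_notMem ha] at hK
    obtain ⟨K', rfl⟩ : ∃ K', K = K' + 1 := ⟨K - 1, by omega⟩
    obtain ⟨b', β', h1, h2⟩ := ih (fun a' ha' => hb a' (mem_insert_of_mem ha')) K' (by omega)
    refine ⟨fun t => if t < K' then b' t else b a, fun t => if t < K' then β' t else β a, ?_, ?_⟩
    · intro t
      simp only
      split_ifs
      · exact h1 t
      · exact hb a (mem_insert_self _ _)
    · intro x
      rw [sum_range_succ, sum_insert ha, ← h2 x, add_comm]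
      congr 1
      · simp
      · apply sum_congr rfl
        intro t ht
        rw [mem_range] at ht
        simp only [if_pos ht]

lemma sq_sum_le (R : ℕ) (z : ℕ → ℂ) :
    ‖∑ i ∈ range R, z i‖ ^ 2 ≤ R * ∑ i ∈ range R, ‖z i‖ ^ 2 := by
  have h1 : ‖∑ i ∈ range R, z i‖ ^ 2 ≤ (∑ i ∈ range R, ‖z i‖) ^ 2 :=
    pow_le_pow_left₀ (norm_nonneg _) (norm_sum_le _ _) 2
  refine h1.trans ?_
  have h2 := sq_sum_le_card_mul_sum_sq (s := range R) (f := fun i => ‖z i‖)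
  rw [card_range] at h2
  exact h2

theorem arb (R : ℕ) (ε : ℝ) (hε : 0 < ε) : ∃ (R' N₀ : ℕ), 1 ≤ N₀ ∧
    ∀ (N : ℕ) (b : ℕ → ℂ) (β : ℕ → ℝ), N₀ ≤ N →
    (∑ h ∈ Ioc 0 N, ‖∑ r ∈ range R, b r * ee (β r * h)‖ ^ 2) / N ≤ 4 →
    ∃ (b' : ℕ → ℂ) (β' : ℕ → ℝ), (∀ r, ‖b' r‖ ≤ 1) ∧
      (∑ h ∈ Ioc 0 N, ‖∑ r ∈ range R, b r * ee (β r * h) -
        ∑ r ∈ range R', b' r * ee (β' r * h)‖ ^ 2) / N ≤ ε := by
  obtain ⟨V, N₀, hV, hbvc⟩ := Pool.Agent.H70.G0.bvc R R 0 le_rfl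
  obtain ⟨m, hm⟩ := exists_nat_ge (2 * V)
  obtain ⟨J, hJ⟩ := exists_nat_ge (R * ((1 + V) ^ 2 * (V ^ 2 * 4)) / (2 * ε) + 1)
  have hV0 : 0 ≤ V := by linarith
  have hm1 : 1 ≤ m := by
    have : (1 : ℝ) ≤ m := by linarith
    exact_mod_cast this
  have hm0 : (0 : ℝ) < m := by exact_mod_cast hm1
  have hJ1 : (1 : ℝ) ≤ J := by
    have : 0 ≤ R * ((1 + V) ^ 2 * (V ^ 2 * 4)) / (2 * ε) := by positivity
    linarith
  have hJ1' : 1 ≤ J := by exact_mod_cast hJ1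
  have hJ0 : (0 : ℝ) < J := by linarith
  refine ⟨R * ((2 * J + 1) * m), max N₀ 1, le_max_right _ _, ?_⟩
  intro N b β hN hms
  have hN0 : N₀ ≤ N := (le_max_left _ _).trans hN
  have hNpos : 0 < N := by
    have := (le_max_right N₀ 1).trans hN
    omega
  have hNr : (0 : ℝ) < N := by exact_mod_cast hNpos
  obtain ⟨γ, hγ⟩ := hbvc N 0 β hN0
  obtain ⟨G, M, hF, hM0, hG, hvar, hM⟩ := hγ b β (by
    intro l hl _
    refine ⟨l, hl, ?_⟩
    rw [sub_self]
    unfold nd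
    simp)
  have hms' : (∑ x ∈ Ioc 0 (0 + N), ‖fs R b β x‖ ^ 2) / N ≤ 4 := by
    rw [zero_add]
    exact hms
  have hM4 : ∑ i ∈ range R, M i ^ 2 ≤ V ^ 2 * 4 :=
    hM.trans (mul_le_mul_of_nonneg_left hms' (by positivity))
  have hMi : ∀ i < R, M i ≤ 2 * V := by
    intro i hi
    have h1 : M i ^ 2 ≤ (2 * V) ^ 2 := by
      have h2 := single_le_sum (f := fun i => M i ^ 2) (fun i _ => sq_nonneg (M i))
        (mem_range.2 hi)
      have h3 : M i ^ 2 ≤ V ^ 2 * 4 := h2.trans hM4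
      nlinarith
    exact le_of_sq_le_sq h1 (by positivity)
  -- the amplitudes from the first point on
  set g : ℕ → ℕ → ℂ := fun i y => G i (y + 1) with hg
  have hgb : ∀ i < R, ∀ x < N, ‖g i x‖ ≤ M i := by
    intro i hi x hx
    apply hG i hi
    rw [mem_Ioc]
    omega
  have hgv : ∀ i < R, ∑ x ∈ range (N - 1), ‖g i (x + 1) - g i x‖ ≤ V * M i := by
    intro i hi
    refine le_trans (le_of_eq ?_) (hvar i hi)
    rw [zero_add]
    have h1 : Ioo 0 N = (range (N - 1)).image (fun x => x + 1) := by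
      ext x
      rw [mem_Ioo, mem_image]
      constructor
      · intro hx
        exact ⟨x - 1, by rw [mem_range]; omega, by omega⟩
      · rintro ⟨y, hy, rfl⟩
        rw [mem_range] at hy
        omega
    rw [h1, sum_image (fun x _ y _ h => by simpa using h)]
  -- the new sum
  set A : Finset (ℕ × ℕ × ℕ) := range R ×ˢ (lowS N J ×ˢ range m) with hA
  have hAc : A.card ≤ R * ((2 * J + 1) * m) := by
    rw [hA, card_product, card_product, card_range, card_range]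
    exact Nat.mul_le_mul_left _ (Nat.mul_le_mul_right _ (lowS_card N J))
  obtain ⟨b', β', hb', hs⟩ := enum
    (fun a : ℕ × ℕ × ℕ => fc N (g a.1) a.2.1 * ee (-((a.2.1 : ℝ) / N)) / m)
    (fun a : ℕ × ℕ × ℕ => γ a.1 + (a.2.1 : ℝ) / N) 1 zero_le_one A (by
      intro a ha
      rw [hA, mem_product, mem_product, mem_range] at ha
      rw [norm_div, norm_mul, norm_ee, mul_one, Complex.norm_natCast, div_le_one hm0]
      exact (fc_le N hNpos (g a.1) (M a.1) (hgb a.1 ha.1) _).trans ((hMi a.1 ha.1).trans hm))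
    _ hAc
  refine ⟨b', β', hb', ?_⟩
  have key : ∀ y ∈ range N, ‖∑ r ∈ range R, b r * ee (β r * (y + 1 : ℕ)) -
      ∑ r ∈ range (R * ((2 * J + 1) * m)), b' r * ee (β' r * (y + 1 : ℕ))‖ ^ 2 ≤
      R * ∑ i ∈ range R, ‖g i y - ∑ j ∈ lowS N J, fc N (g i) j * ee ((j : ℝ) / N * y)‖ ^ 2 := by
    intro y _
    have h1 : ∑ r ∈ range R, b r * ee (β r * (y + 1 : ℕ)) =
        ∑ i ∈ range R, ee (γ i * (y + 1 : ℕ)) * g i y := hF (y + 1)
    have h2 : ∑ r ∈ range (R * ((2 * J + 1) * m)), b' r * ee (β' r * (y + 1 : ℕ)) =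
        ∑ i ∈ range R, ee (γ i * (y + 1 : ℕ)) *
          ∑ j ∈ lowS N J, fc N (g i) j * ee ((j : ℝ) / N * y) := by
      rw [hs, hA, sum_product]
      apply sum_congr rfl
      intro i _
      rw [sum_product, mul_sum]
      apply sum_congr rfl
      intro j _
      simp only
      rw [sum_const, card_range, nsmul_eq_mul]
      have h3 : ee ((γ i + (j : ℝ) / N) * (y + 1 : ℕ)) =
          ee (γ i * (y + 1 : ℕ)) * (ee ((j : ℝ) / N * y) * ee ((j : ℝ) / N)) := by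
        rw [← ee_add, ← ee_add]
        congr 1
        push_cast
        ring
      have h4 : ee (-((j : ℝ) / N)) * ee ((j : ℝ) / N) = 1 := by
        rw [← ee_add, neg_add_cancel, ee_zero']
      rw [h3]
      have hmc : (m : ℂ) ≠ 0 := by
        have : m ≠ 0 := by omega
        exact_mod_cast this
      have h5 : (m : ℂ) * (fc N (g i) j * ee (-((j : ℝ) / N)) / m *
          (ee (γ i * (y + 1 : ℕ)) * (ee ((j : ℝ) / N * y) * ee ((j : ℝ) / N)))) =
          ee (γ i * (y + 1 : ℕ)) * (fc N (g i) j * ee ((j : ℝ) / N * y)) *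
            (ee (-((j : ℝ) / N)) * ee ((j : ℝ) / N)) := by
        field_simp
      rw [h5, h4, mul_one]
    rw [h1, h2, ← sum_sub_distrib]
    refine (sq_sum_le R _).trans (mul_le_mul_of_nonneg_left ?_ (Nat.cast_nonneg R))
    apply sum_le_sum
    intro i _
    rw [← mul_sub, norm_mul, norm_ee, one_mul]
  have hIoc : ∀ f : ℕ → ℝ, ∑ h ∈ Ioc 0 N, f h = ∑ y ∈ range N, f (y + 1) := by
    intro f
    have h1 : Ioc 0 N = (range N).image (fun x => x + 1) := by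
      ext x
      rw [mem_Ioc, mem_image]
      constructor
      · intro hx
        exact ⟨x - 1, by rw [mem_range]; omega, by omega⟩
      · rintro ⟨y, hy, rfl⟩
        rw [mem_range] at hy
        omega
    rw [h1, sum_image (fun x _ y _ h => by simpa using h)]
  rw [div_le_iff₀ hNr, hIoc]
  refine (sum_le_sum key).trans ?_
  rw [← mul_sum, sum_comm]
  have h1 : ∀ i ∈ range R, ∑ y ∈ range N,
      ‖g i y - ∑ j ∈ lowS N J, fc N (g i) j * ee ((j : ℝ) / N * y)‖ ^ 2 ≤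
      N * ((1 + V) ^ 2 / (2 * J)) * M i ^ 2 := by
    intro i hi
    rw [mem_range] at hi
    refine (near_low N J hNpos hJ1' (g i) (M i) V (hM0 i) (hgb i hi) (hgv i hi)).trans
      (le_of_eq ?_)
    ring
  refine (mul_le_mul_of_nonneg_left (sum_le_sum h1) (Nat.cast_nonneg R)).trans ?_
  rw [← mul_sum]
  have h2 : (R : ℝ) * (N * ((1 + V) ^ 2 / (2 * J)) * ∑ i ∈ range R, M i ^ 2) ≤
      R * (N * ((1 + V) ^ 2 / (2 * J)) * (V ^ 2 * 4)) := by
    apply mul_le_mul_of_nonneg_left _ (Nat.cast_nonneg R)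
    exact mul_le_mul_of_nonneg_left hM4 (by positivity)
  refine h2.trans ?_
  have h3 : R * ((1 + V) ^ 2 * (V ^ 2 * 4)) / (2 * ε) ≤ J := by linarith
  rw [div_le_iff₀ (by positivity)] at h3
  have h4 : (R : ℝ) * (N * ((1 + V) ^ 2 / (2 * J)) * (V ^ 2 * 4)) =
      N * (R * ((1 + V) ^ 2 * (V ^ 2 * 4)) / (2 * J)) := by
    field_simp
  rw [h4, mul_comm ε]
  apply mul_le_mul_of_nonneg_left _ hNr.le
  rw [div_le_iff₀ (by positivity)]
  linarith

/-- one window: arbitrary coefficients against coefficients of norm at most one -/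
theorem point (R : ℕ) (ε : ℝ) (hε : 0 < ε) : ∃ (R' H₁ : ℕ), 1 ≤ H₁ ∧
    ∀ (H : ℕ) (f b : ℕ → ℂ) (β : ℕ → ℝ), H₁ ≤ H → (∀ h, ‖f h‖ ≤ 1) →
    ∃ (b' : ℕ → ℂ) (β' : ℕ → ℝ), (∀ r, ‖b' r‖ ≤ 1) ∧
      (∑ h ∈ Ioc 0 H, ‖f h - ∑ r ∈ range R', b' r * ee (β' r * h)‖ ^ 2) / H ≤
        2 * ((∑ h ∈ Ioc 0 H, ‖f h - ∑ r ∈ range R, b r * ee (β r * h)‖ ^ 2) / H) + 2 * ε := by
  obtain ⟨R', N₀, hN₀, harb⟩ := arb R ε hε
  refine ⟨R', N₀, hN₀, ?_⟩
  intro H f b β hH hf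
  have hHpos : (0 : ℝ) < H := by
    have : 0 < H := by omega
    exact_mod_cast this
  obtain ⟨F, hF⟩ : ∃ F : ℕ → ℂ, F = fun h => ∑ r ∈ range R, b r * ee (β r * (h : ℕ)) := ⟨_, rfl⟩
  by_cases hms : (∑ h ∈ Ioc 0 H, ‖∑ r ∈ range R, b r * ee (β r * h)‖ ^ 2) / H ≤ 4
  · obtain ⟨b', β', hb', h1⟩ := harb H b β hH hms
    refine ⟨b', β', hb', ?_⟩
    have h2 : ∀ h ∈ Ioc 0 H, ‖f h - ∑ r ∈ range R', b' r * ee (β' r * h)‖ ^ 2 ≤
        2 * ‖f h - ∑ r ∈ range R, b r * ee (β r * h)‖ ^ 2 +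
          2 * ‖∑ r ∈ range R, b r * ee (β r * h) -
            ∑ r ∈ range R', b' r * ee (β' r * h)‖ ^ 2 := by
      intro h _
      have h3 : f h - ∑ r ∈ range R', b' r * ee (β' r * h) =
          (f h - ∑ r ∈ range R, b r * ee (β r * h)) + (∑ r ∈ range R, b r * ee (β r * h) -
            ∑ r ∈ range R', b' r * ee (β' r * h)) := by ring
      rw [h3]
      have h4 := norm_add_le (f h - ∑ r ∈ range R, b r * ee (β r * h))
        (∑ r ∈ range R, b r * ee (β r * h) - ∑ r ∈ range R', b' r * ee (β' r * h))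
      have h5 := pow_le_pow_left₀ (norm_nonneg _) h4 2
      refine h5.trans ?_
      nlinarith [sq_nonneg (‖f h - ∑ r ∈ range R, b r * ee (β r * h)‖ -
        ‖∑ r ∈ range R, b r * ee (β r * h) - ∑ r ∈ range R', b' r * ee (β' r * h)‖)]
    have h3 := sum_le_sum h2
    rw [sum_add_distrib, ← mul_sum, ← mul_sum] at h3
    rw [div_le_iff₀ hHpos] at h1 ⊢
    have h4 : (2 * ((∑ h ∈ Ioc 0 H, ‖f h - ∑ r ∈ range R, b r * ee (β r * h)‖ ^ 2) / H) +
        2 * ε) * H = 2 * (∑ h ∈ Ioc 0 H, ‖f h - ∑ r ∈ range R, b r * ee (β r * h)‖ ^ 2) +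
          2 * (ε * H) := by
      field_simp
    rw [h4]
    linarith
  · push Not at hms
    refine ⟨fun _ => 0, fun _ => 0, fun _ => by simp, ?_⟩
    have h1 : (∑ h ∈ Ioc 0 H, ‖f h - ∑ r ∈ range R', (fun _ => (0 : ℂ)) r *
        ee ((fun _ => (0 : ℝ)) r * h)‖ ^ 2) / H ≤ 1 := by
      rw [div_le_one hHpos]
      have h2 : ∀ h ∈ Ioc 0 H, ‖f h - ∑ r ∈ range R', (fun _ => (0 : ℂ)) r *
          ee ((fun _ => (0 : ℝ)) r * h)‖ ^ 2 ≤ 1 := by
        intro h _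
        simp only [zero_mul, sum_const_zero, sub_zero]
        exact pow_le_one₀ (norm_nonneg _) (hf h)
      refine (sum_le_sum h2).trans ?_
      rw [sum_const, Nat.card_Ioc, nsmul_eq_mul, mul_one]
      simp
    -- the distance is at least one
    have h2 : ∀ h ∈ Ioc 0 H, ‖∑ r ∈ range R, b r * ee (β r * h)‖ ^ 2 ≤
        2 * ‖f h - ∑ r ∈ range R, b r * ee (β r * h)‖ ^ 2 + 2 := by
      intro h _
      have h3 : ∑ r ∈ range R, b r * ee (β r * h) =
          f h - (f h - ∑ r ∈ range R, b r * ee (β r * h)) := by ring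
      have h4 : ‖∑ r ∈ range R, b r * ee (β r * h)‖ ≤
          ‖f h‖ + ‖f h - ∑ r ∈ range R, b r * ee (β r * h)‖ := by
        nth_rewrite 1 [h3]
        exact norm_sub_le _ _
      have h5 : ‖∑ r ∈ range R, b r * ee (β r * h)‖ ≤
          1 + ‖f h - ∑ r ∈ range R, b r * ee (β r * h)‖ := by
        linarith [hf h]
      have h6 := pow_le_pow_left₀ (norm_nonneg _) h5 2
      refine h6.trans ?_
      nlinarith [sq_nonneg (1 - ‖f h - ∑ r ∈ range R, b r * ee (β r * h)‖)]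
    have h3 := sum_le_sum h2
    rw [sum_add_distrib, ← mul_sum, sum_const, Nat.card_Ioc, nsmul_eq_mul, Nat.sub_zero] at h3
    rw [lt_div_iff₀ hHpos] at hms
    have h4 : 1 ≤ (∑ h ∈ Ioc 0 H, ‖f h - ∑ r ∈ range R, b r * ee (β r * h)‖ ^ 2) / H := by
      rw [le_div_iff₀ hHpos]
      linarith
    linarith

/-- the exponential function in plain words -/
lemma exp_ee (x : ℝ) (h : ℕ) : Complex.exp (2 * Real.pi * Complex.I * (x * h)) = ee (x * h) := by
  unfold ee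
  congr 1
  push_cast
  ring

/-- From coefficients of norm at most one to arbitrary coefficients, logarithmic means over any
finite set of integers. -/
theorem allc (c : ℝ) (hc : 0 < c) (R : ℕ) : ∃ (R' H₁ : ℕ), 1 ≤ H₁ ∧
    ∀ (H : ℕ) (I : Finset ℕ) (L : ℝ) (f : ℕ → ℂ), H₁ ≤ H → ∑ n ∈ I, 1 / (n : ℝ) ≤ 2 * L →
    (∀ n, ‖f n‖ ≤ 1) →
    (∀ (b : ℕ → ℕ → ℂ) (β : ℕ → ℕ → ℝ), (∀ n r, ‖b n r‖ ≤ 1) →
      c * L < ∑ n ∈ I, 1 / (n : ℝ) * ((∑ h ∈ Icc 1 H, ‖f (n + h) - ∑ r ∈ range R',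
        b n r * Complex.exp (2 * Real.pi * Complex.I * (β n r * h))‖ ^ 2) / H)) →
    ∀ (b : ℕ → ℕ → ℂ) (β : ℕ → ℕ → ℝ),
      c / 4 * L < ∑ n ∈ I, 1 / (n : ℝ) * ((∑ h ∈ Icc 1 H, ‖f (n + h) - ∑ r ∈ range R,
        b n r * Complex.exp (2 * Real.pi * Complex.I * (β n r * h))‖ ^ 2) / H) := by
  obtain ⟨R', H₁, hH₁, hp⟩ := point R (c / 8) (by positivity)
  refine ⟨R', H₁, hH₁, ?_⟩
  intro H I L f hH hI hf hyp b β
  have hIcc : Icc 1 H = Ioc 0 H := by
    ext x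
    rw [mem_Icc, mem_Ioc]
    omega
  choose b' β' hb' hd using fun n : ℕ => hp H (fun h => f (n + h)) (b n) (β n) hH (fun h => hf _)
  have h1 := hyp b' β' hb'
  simp only [exp_ee, hIcc] at h1 ⊢
  have h2 : ∀ n ∈ I, 1 / (n : ℝ) * ((∑ h ∈ Ioc 0 H, ‖f (n + h) - ∑ r ∈ range R',
      b' n r * ee (β' n r * h)‖ ^ 2) / H) ≤
      2 * (1 / (n : ℝ) * ((∑ h ∈ Ioc 0 H, ‖f (n + h) - ∑ r ∈ range R,
        b n r * ee (β n r * h)‖ ^ 2) / H)) + 2 * (c / 8) * (1 / (n : ℝ)) := by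
    intro n _
    have h3 := mul_le_mul_of_nonneg_left (hd n) (show (0 : ℝ) ≤ 1 / (n : ℝ) by positivity)
    refine h3.trans (le_of_eq ?_)
    ring
  have h3 := sum_le_sum h2
  rw [sum_add_distrib, ← mul_sum, ← mul_sum] at h3
  have h4 : 2 * (c / 8) * ∑ n ∈ I, 1 / (n : ℝ) ≤ 2 * (c / 8) * (2 * L) :=
    mul_le_mul_of_nonneg_left hI (by positivity)
  linarith

end Pool.Agent.H22.AR
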