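import Pool.Agent.H91.BS.ESM

/-!
# Fourier coefficients of a function of bounded variation on a window

A function on `N` points of norm at most `M` and of variation at most `V M` is near in mean square
to the sum of its Fourier terms of order at most `J`.
-/

set_option autoImplicit false

open Finset Pool.Agent.H6.N4D

namespace Pool.Agent.H22.AR

lemma ee_pow (x : ℝ) (n : ℕ) : ee (x * n) = ee x ^ n := by
  unfold ee
  rw [← Complex.exp_nat_mul]
  congr 1
  push_cast
  ring

lemma ee_zero' : ee 0 = 1 := by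
  unfold ee
  simp

lemma ee_ne_one {x : ℝ} (h : ∀ n : ℤ, x ≠ n) : ee x ≠ 1 := by
  intro h1
  unfold ee at h1
  rw [Complex.exp_eq_one_iff] at h1
  obtain ⟨n, hn⟩ := h1
  apply h n
  have hpi : (2 * Real.pi * Complex.I : ℂ) ≠ 0 := by
    simp [Real.pi_ne_zero]
  have h2 : (x : ℂ) * (2 * Real.pi * Complex.I) = (n : ℂ) * (2 * Real.pi * Complex.I) := by
    rw [← hn]
    push_cast
    ring
  have h3 := mul_right_cancel₀ hpi h2
  exact_mod_cast h3

lemma conj_ee' (x : ℝ) : (starRingEnd ℂ) (ee x) = ee (-x) := by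
  unfold ee
  rw [← Complex.exp_conj, map_mul, Complex.conj_ofReal, Complex.conj_I]
  congr 1; push_cast; ring

/-- orthogonality -/
lemma orth (N : ℕ) (hN : 0 < N) (i j : ℕ) (hi : i < N) (hj : j < N) :
    ∑ x ∈ range N, ee (((i : ℝ) - j) / N * x) = if i = j then (N : ℂ) else 0 := by
  have hN0 : (N : ℝ) ≠ 0 := by positivity
  split_ifs with h
  · subst h
    simp only [sub_self, zero_div, zero_mul, ee_zero', sum_const, card_range, nsmul_eq_mul,
      mul_one]
  · have h1 : ee (((i : ℝ) - j) / N) ≠ 1 := by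
      apply ee_ne_one
      intro n hn
      rw [div_eq_iff hN0] at hn
      have h2 : ((i : ℤ) - j) = n * N := by exact_mod_cast hn
      have h3 : |(i : ℤ) - j| < N := by
        rw [abs_lt]
        constructor <;> omega
      rw [h2, abs_mul] at h3
      have h4 : |(N : ℤ)| = N := by simp
      rw [h4] at h3
      have h5 : |n| < 1 := by
        by_contra h6
        push Not at h6
        have : (N : ℤ) ≤ |n| * N := le_mul_of_one_le_left (by positivity) h6
        omega
      have h6 : n = 0 := by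
        rw [abs_lt] at h5
        omega
      rw [h6, zero_mul] at h2
      omega
    have h2 : ∀ x ∈ range N, ee (((i : ℝ) - j) / N * x) = ee (((i : ℝ) - j) / N) ^ x :=
      fun x _ => ee_pow _ _
    rw [sum_congr rfl h2, geom_sum_eq h1]
    have h3 : ee (((i : ℝ) - j) / N) ^ N = 1 := by
      rw [← ee_pow]
      have h4 : ((i : ℝ) - j) / N * N = (((i : ℤ) - j : ℤ) : ℝ) := by
        push_cast
        field_simp
      rw [h4, ee_int]
    rw [h3, sub_self, zero_div]

/-- the Fourier coefficients -/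
noncomputable def fc (N : ℕ) (g : ℕ → ℂ) (j : ℕ) : ℂ :=
  (∑ x ∈ range N, g x * ee (-((j : ℝ) / N * x))) / N

lemma fc_inv (N : ℕ) (hN : 0 < N) (g : ℕ → ℂ) (y : ℕ) (hy : y < N) :
    g y = ∑ j ∈ range N, fc N g j * ee ((j : ℝ) / N * y) := by
  have hN0 : (N : ℂ) ≠ 0 := by
    have : N ≠ 0 := by omega
    exact_mod_cast this
  have h1 : ∑ j ∈ range N, fc N g j * ee ((j : ℝ) / N * y) =
      (∑ x ∈ range N, g x * ∑ j ∈ range N, ee (((y : ℝ) - x) / N * j)) / N := by
    unfold fc
    simp only [mul_sum, sum_div, sum_mul]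
    rw [sum_comm]
    apply sum_congr rfl
    intro x _
    apply sum_congr rfl
    intro j _
    have h2 : ee (((y : ℝ) - x) / N * j) = ee (-((j : ℝ) / N * x)) * ee ((j : ℝ) / N * y) := by
      rw [← ee_add]
      congr 1
      ring
    rw [h2]
    ring
  rw [h1]
  have h2 : ∀ x ∈ range N, g x * ∑ j ∈ range N, ee (((y : ℝ) - x) / N * j) =
      if y = x then g x * N else 0 := by
    intro x hx
    rw [orth N hN y x hy (mem_range.1 hx)]
    split_ifs <;> simp
  rw [sum_congr rfl h2, sum_ite_eq, if_pos (mem_range.2 hy), mul_div_assoc, div_self hN0, mul_one]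

/-- Parseval's identity for a set of frequencies -/
lemma pars (N : ℕ) (hN : 0 < N) (c : ℕ → ℂ) (T : Finset ℕ) (hT : T ⊆ range N) :
    ∑ x ∈ range N, ‖∑ j ∈ T, c j * ee ((j : ℝ) / N * x)‖ ^ 2 = N * ∑ j ∈ T, ‖c j‖ ^ 2 := by
  have h0 : ∀ z : ℂ, ((‖z‖ ^ 2 : ℝ) : ℂ) = z * (starRingEnd ℂ) z := by
    intro z
    rw [Complex.mul_conj, Complex.normSq_eq_norm_sq]
  have h1 : ((∑ x ∈ range N, ‖∑ j ∈ T, c j * ee ((j : ℝ) / N * x)‖ ^ 2 : ℝ) : ℂ) =
      ((N * ∑ j ∈ T, ‖c j‖ ^ 2 : ℝ) : ℂ) := by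
    push_cast
    have h2 : ∀ x ∈ range N, ((‖∑ j ∈ T, c j * ee ((j : ℝ) / N * x)‖ : ℝ) : ℂ) ^ 2 =
        ∑ i ∈ T, ∑ j ∈ T, c i * (starRingEnd ℂ) (c j) * ee (((i : ℝ) - j) / N * x) := by
      intro x _
      have h3 := h0 (∑ j ∈ T, c j * ee ((j : ℝ) / N * x))
      push_cast at h3
      rw [h3, map_sum, sum_mul_sum]
      apply sum_congr rfl
      intro i _
      apply sum_congr rfl
      intro j _
      rw [map_mul, conj_ee']
      have h4 : ee (((i : ℝ) - j) / N * x) = ee ((i : ℝ) / N * x) * ee (-((j : ℝ) / N * x)) := by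
        rw [← ee_add]
        congr 1
        ring
      rw [h4]
      ring
    rw [sum_congr rfl h2, sum_comm]
    have h3 : ∀ i ∈ T, ∑ x ∈ range N, ∑ j ∈ T,
        c i * (starRingEnd ℂ) (c j) * ee (((i : ℝ) - j) / N * x) = N * (‖c i‖ : ℂ) ^ 2 := by
      intro i hi
      rw [sum_comm]
      have h4 : ∀ j ∈ T, ∑ x ∈ range N, c i * (starRingEnd ℂ) (c j) *
          ee (((i : ℝ) - j) / N * x) = if i = j then c i * (starRingEnd ℂ) (c j) * N else 0 := by
        intro j hj
        rw [← mul_sum, orth N hN i j (mem_range.1 (hT hi)) (mem_range.1 (hT hj))]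
        split_ifs <;> simp
      rw [sum_congr rfl h4, sum_ite_eq, if_pos hi]
      have h5 := h0 (c i)
      push_cast at h5
      rw [h5]
      ring
    rw [sum_congr rfl h3, mul_sum]
  exact_mod_cast h1

lemma nd_low (N : ℕ) (hN : 0 < N) (j : ℕ) (hjN : j < N) :
    ((min j (N - j) : ℕ) : ℝ) / N ≤ nd (-((j : ℝ) / N)) := by
  have hN0 : (0 : ℝ) < N := by exact_mod_cast hN
  rw [nd_neg]
  unfold nd
  obtain ⟨k, hk⟩ : ∃ k : ℤ, k = round ((j : ℝ) / N) := ⟨_, rfl⟩
  rw [← hk]
  have h1 : (j : ℝ) / N - k = (((j : ℤ) - k * N : ℤ) : ℝ) / N := by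
    push_cast
    field_simp
  rw [h1, abs_div, abs_of_pos hN0]
  apply div_le_div_of_nonneg_right _ hN0.le
  have h2 : ((min j (N - j) : ℕ) : ℤ) ≤ |(j : ℤ) - k * N| := by
    rcases lt_trichotomy k 0 with h | h | h
    · have h3 : (N : ℤ) ≤ -k * N := le_mul_of_one_le_left (by positivity) (by omega)
      have h4 := le_abs_self ((j : ℤ) - k * N)
      have h5 : (j : ℤ) - k * N = j + -k * N := by ring
      have h6 : ((min j (N - j) : ℕ) : ℤ) ≤ N := by
        have : min j (N - j) ≤ N := (min_le_left _ _).trans hjN.le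
        exact_mod_cast this
      rw [h5] at h4 ⊢
      linarith [Int.natCast_nonneg j]
    · subst h
      rw [zero_mul, sub_zero, Nat.abs_cast]
      exact_mod_cast min_le_left _ _
    · have h3 : (N : ℤ) ≤ k * N := le_mul_of_one_le_left (by positivity) (by omega)
      have h4 := neg_le_abs ((j : ℤ) - k * N)
      have h6 : ((min j (N - j) : ℕ) : ℤ) ≤ N - j := by
        have h7 : min j (N - j) ≤ N - j := min_le_right _ _
        omega
      linarith
  have h3 : (((min j (N - j) : ℕ) : ℤ) : ℝ) ≤ ((|(j : ℤ) - k * N| : ℤ) : ℝ) := by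
    exact_mod_cast h2
  push_cast at h3 ⊢
  exact h3

/-- the Fourier coefficients of a function of bounded variation -/
lemma fc_bd (N : ℕ) (hN : 0 < N) (g : ℕ → ℂ) (M V : ℝ) (hM : 0 ≤ M)
    (hb : ∀ x < N, ‖g x‖ ≤ M) (hv : ∑ x ∈ range (N - 1), ‖g (x + 1) - g x‖ ≤ V * M)
    (j : ℕ) (hj : 0 < j) (hjN : j < N) :
    ‖fc N g j‖ ≤ (1 + V) * M / (2 * (min j (N - j) : ℕ)) := by
  have hN0 : (0 : ℝ) < N := by exact_mod_cast hN
  have hmin : 0 < min j (N - j) := lt_min hj (by omega)
  have hmin0 : (0 : ℝ) < (min j (N - j) : ℕ) := by exact_mod_cast hmin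
  have hnd := nd_low N hN j hjN
  have hnd0 : 0 < nd (-((j : ℝ) / N)) := lt_of_lt_of_le (by positivity) hnd
  rcases hM.eq_or_lt with hM0 | hM0
  · have h1 : fc N g j = 0 := by
      unfold fc
      rw [sum_eq_zero, zero_div]
      intro x hx
      have h2 := hb x (mem_range.1 hx)
      rw [← hM0] at h2
      have h3 : g x = 0 := norm_le_zero_iff.1 h2
      rw [h3, zero_mul]
    rw [h1, norm_zero, ← hM0]
    simp
  · set G : ℕ → ℂ := fun x => (if x < N then g x else g (N - 1)) / M with hG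
    have hMc : (M : ℂ) ≠ 0 := by exact_mod_cast hM0.ne'
    have hBV : Pool.Agent.H21.BS.BV V 0 N G := by
      constructor
      · intro n
        rw [hG]
        simp only
        rw [norm_div, Complex.norm_real, Real.norm_of_nonneg hM0.le, div_le_one hM0]
        split_ifs with h
        · exact hb n h
        · exact hb _ (by omega)
      · have h1 : ∑ x ∈ range N, ‖G (0 + x + 1) - G (0 + x)‖ =
            (∑ x ∈ range (N - 1), ‖g (x + 1) - g x‖) / M := by
          have h2 : N = (N - 1) + 1 := by omega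
          rw [h2, sum_range_succ, ← h2, sum_div]
          have h3 : ‖G (0 + (N - 1) + 1) - G (0 + (N - 1))‖ = 0 := by
            rw [hG]
            simp only
            rw [if_neg (by omega), if_pos (by omega), zero_add, sub_self, norm_zero]
          rw [h3, add_zero]
          apply sum_congr rfl
          intro x hx
          rw [mem_range] at hx
          rw [hG]
          simp only
          rw [if_pos (by omega), if_pos (by omega), zero_add, ← sub_div, norm_div,
            Complex.norm_real, Real.norm_of_nonneg hM0.le]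
        rw [h1, div_le_iff₀ hM0]
        exact hv
    have h2 := Pool.Agent.H91.BS.pf_ESM (-((j : ℝ) / N)) V 0 N G hnd0 hBV
    have h3 : fc N g j = M * (∑ x ∈ range N, ee (-((j : ℝ) / N) * ((0 + x : ℕ) : ℝ)) *
        G (0 + x)) / N := by
      unfold fc
      congr 1
      rw [mul_sum]
      apply sum_congr rfl
      intro x hx
      rw [hG]
      simp only
      rw [zero_add, if_pos (mem_range.1 hx)]
      have h4 : -((j : ℝ) / N) * (x : ℝ) = -((j : ℝ) / N * x) := by ring
      rw [h4]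
      field_simp
    rw [h3, norm_div, norm_mul, Complex.norm_real, Real.norm_of_nonneg hM0.le,
      Complex.norm_natCast, div_le_iff₀ hN0]
    have hV0 : 0 ≤ 1 + V := by
      have : 0 ≤ V * M := le_trans (sum_nonneg fun _ _ => norm_nonneg _) hv
      have h5 : 0 ≤ V := nonneg_of_mul_nonneg_left this hM0
      linarith
    calc M * ‖∑ x ∈ range N, ee (-((j : ℝ) / N) * ((0 + x : ℕ) : ℝ)) * G (0 + x)‖
        ≤ M * ((1 + V) / (2 * nd (-((j : ℝ) / N)))) := mul_le_mul_of_nonneg_left h2 hM0.le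
      _ ≤ M * ((1 + V) / (2 * (((min j (N - j) : ℕ) : ℝ) / N))) := by
          apply mul_le_mul_of_nonneg_left _ hM0.le
          apply div_le_div_of_nonneg_left hV0 (by positivity)
          linarith
      _ = (1 + V) * M / (2 * (min j (N - j) : ℕ)) * N := by
          field_simp

/-- sums of inverse squares -/
lemma tail (J : ℕ) (hJ : 1 ≤ J) (K : ℕ) :
    ∑ j ∈ Ioc J (J + K), 1 / (j : ℝ) ^ 2 ≤ 1 / (J : ℝ) - 1 / ((J + K : ℕ) : ℝ) := by
  have hJ0 : (0 : ℝ) < J := by exact_mod_cast hJ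
  induction K with
  | zero => simp
  | succ K ih =>
    have h1 : Ioc J (J + (K + 1)) = insert (J + (K + 1)) (Ioc J (J + K)) := by
      ext x
      rw [mem_insert, mem_Ioc, mem_Ioc]
      omega
    rw [h1, sum_insert (by rw [mem_Ioc]; omega)]
    have h2 : 1 / (((J + (K + 1) : ℕ) : ℝ)) ^ 2 ≤
        1 / ((J + K : ℕ) : ℝ) - 1 / ((J + (K + 1) : ℕ) : ℝ) := by
      have h3 : (0 : ℝ) < ((J + K : ℕ) : ℝ) := by
        push_cast
        positivity
      have h4 : ((J + (K + 1) : ℕ) : ℝ) = ((J + K : ℕ) : ℝ) + 1 := by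
        push_cast
        ring
      rw [h4, div_sub_div _ _ h3.ne' (by positivity), div_le_div_iff₀ (by positivity)
        (by positivity)]
      nlinarith
    linarith

/-- the frequencies of order at most `J` -/
def lowS (N J : ℕ) : Finset ℕ := (range N).filter fun j => j ≤ J ∨ N ≤ j + J

lemma lowS_card (N J : ℕ) : (lowS N J).card ≤ 2 * J + 1 := by
  have h1 : lowS N J ⊆ range (J + 1) ∪ Ico (N - J) N := by
    intro j hj
    unfold lowS at hj
    rw [mem_filter, mem_range] at hj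
    rw [mem_union, mem_range, mem_Ico]
    omega
  refine (card_le_card h1).trans ((card_union_le _ _).trans ?_)
  rw [card_range, Nat.card_Ico]
  omega

lemma high_sum (N J : ℕ) (hN : 0 < N) (hJ : 1 ≤ J) (g : ℕ → ℂ) (M V : ℝ) (hM : 0 ≤ M)
    (hb : ∀ x < N, ‖g x‖ ≤ M) (hv : ∑ x ∈ range (N - 1), ‖g (x + 1) - g x‖ ≤ V * M) :
    ∑ j ∈ range N \ lowS N J, ‖fc N g j‖ ^ 2 ≤ ((1 + V) * M) ^ 2 / (2 * J) := by
  have hJ0 : (0 : ℝ) < J := by exact_mod_cast hJ
  have hmem : ∀ j ∈ range N \ lowS N J, J < j ∧ j + J < N := by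
    intro j hj
    rw [mem_sdiff, mem_range] at hj
    unfold lowS at hj
    rw [mem_filter, mem_range] at hj
    have := hj.2
    push Not at this
    have h2 := this hj.1
    exact h2
  have h1 : ∀ j ∈ range N \ lowS N J, ‖fc N g j‖ ^ 2 ≤
      ((1 + V) * M) ^ 2 / 4 * (1 / (j : ℝ) ^ 2 + 1 / ((N - j : ℕ) : ℝ) ^ 2) := by
    intro j hj
    obtain ⟨h2, h3⟩ := hmem j hj
    have h4 := fc_bd N hN g M V hM hb hv j (by omega) (by omega)
    have hmin : 0 < min j (N - j) := lt_min (by omega) (by omega)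
    have hmin0 : (0 : ℝ) < (min j (N - j) : ℕ) := by exact_mod_cast hmin
    have h5 : ‖fc N g j‖ ^ 2 ≤ ((1 + V) * M / (2 * (min j (N - j) : ℕ))) ^ 2 :=
      pow_le_pow_left₀ (norm_nonneg _) h4 2
    have h6 : ((1 + V) * M / (2 * (min j (N - j) : ℕ))) ^ 2 =
        ((1 + V) * M) ^ 2 / 4 * (1 / ((min j (N - j) : ℕ) : ℝ) ^ 2) := by
      field_simp
      ring
    rw [h6] at h5
    refine h5.trans (mul_le_mul_of_nonneg_left ?_ (by positivity))
    rcases min_choice j (N - j) with h7 | h7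
    · rw [h7]
      have : (0 : ℝ) ≤ 1 / ((N - j : ℕ) : ℝ) ^ 2 := by positivity
      linarith
    · rw [h7]
      have : (0 : ℝ) ≤ 1 / (j : ℝ) ^ 2 := by positivity
      linarith
  refine (sum_le_sum h1).trans ?_
  rw [← mul_sum, sum_add_distrib]
  have h2 : ∑ j ∈ range N \ lowS N J, 1 / (j : ℝ) ^ 2 ≤ 1 / (J : ℝ) := by
    have h3 : range N \ lowS N J ⊆ Ioc J (J + N) := by
      intro j hj
      obtain ⟨h4, h5⟩ := hmem j hj
      rw [mem_Ioc]
      omega
    refine (sum_le_sum_of_subset_of_nonneg h3 fun _ _ _ => by positivity).trans ?_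
    have h4 := tail J hJ N
    have h5 : (0 : ℝ) ≤ 1 / ((J + N : ℕ) : ℝ) := by positivity
    linarith
  have h3 : ∑ j ∈ range N \ lowS N J, 1 / ((N - j : ℕ) : ℝ) ^ 2 ≤ 1 / (J : ℝ) := by
    have h4 : ∑ j ∈ range N \ lowS N J, 1 / ((N - j : ℕ) : ℝ) ^ 2 =
        ∑ i ∈ (range N \ lowS N J).image (fun j => N - j), 1 / (i : ℝ) ^ 2 := by
      rw [sum_image]
      intro i hi j hj h5
      obtain ⟨h6, h7⟩ := hmem i hi
      obtain ⟨h8, h9⟩ := hmem j hj
      simp only at h5
      omega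
    rw [h4]
    have h5 : (range N \ lowS N J).image (fun j => N - j) ⊆ Ioc J (J + N) := by
      intro i hi
      rw [mem_image] at hi
      obtain ⟨j, hj, rfl⟩ := hi
      obtain ⟨h6, h7⟩ := hmem j hj
      rw [mem_Ioc]
      omega
    refine (sum_le_sum_of_subset_of_nonneg h5 fun _ _ _ => by positivity).trans ?_
    have h4 := tail J hJ N
    have h5 : (0 : ℝ) ≤ 1 / ((J + N : ℕ) : ℝ) := by positivity
    linarith
  have h4 : ((1 + V) * M) ^ 2 / 4 * (1 / (J : ℝ) + 1 / J) = ((1 + V) * M) ^ 2 / (2 * J) := by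
    field_simp
    ring
  rw [← h4]
  apply mul_le_mul_of_nonneg_left _ (by positivity)
  linarith

/-- a function of bounded variation is near to the sum of its Fourier terms of small order -/
lemma near_low (N J : ℕ) (hN : 0 < N) (hJ : 1 ≤ J) (g : ℕ → ℂ) (M V : ℝ) (hM : 0 ≤ M)
    (hb : ∀ x < N, ‖g x‖ ≤ M) (hv : ∑ x ∈ range (N - 1), ‖g (x + 1) - g x‖ ≤ V * M) :
    ∑ y ∈ range N, ‖g y - ∑ j ∈ lowS N J, fc N g j * ee ((j : ℝ) / N * y)‖ ^ 2 ≤
      N * (((1 + V) * M) ^ 2 / (2 * J)) := by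
  have h1 : ∀ y ∈ range N, g y - ∑ j ∈ lowS N J, fc N g j * ee ((j : ℝ) / N * y) =
      ∑ j ∈ range N \ lowS N J, fc N g j * ee ((j : ℝ) / N * y) := by
    intro y hy
    have hs : lowS N J ⊆ range N := filter_subset _ _
    have h2 := sum_sdiff hs (f := fun j => fc N g j * ee ((j : ℝ) / N * y))
    rw [← fc_inv N hN g y (mem_range.1 hy)] at h2
    rw [← h2]
    ring
  rw [sum_congr rfl (fun y hy => by rw [h1 y hy]), pars N hN _ _ sdiff_subset]
  exact mul_le_mul_of_nonneg_left (high_sum N J hN hJ g M V hM hb hv) (Nat.cast_nonneg _)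

/-- the Fourier coefficients are bounded -/
lemma fc_le (N : ℕ) (hN : 0 < N) (g : ℕ → ℂ) (M : ℝ) (hb : ∀ x < N, ‖g x‖ ≤ M) (j : ℕ) :
    ‖fc N g j‖ ≤ M := by
  have hN0 : (0 : ℝ) < N := by exact_mod_cast hN
  unfold fc
  rw [norm_div, Complex.norm_natCast, div_le_iff₀ hN0]
  refine (norm_sum_le _ _).trans ?_
  have h1 : ∀ x ∈ range N, ‖g x * ee (-((j : ℝ) / N * x))‖ ≤ M := by
    intro x hx
    rw [norm_mul, norm_ee, mul_one]
    exact hb x (mem_range.1 hx)
  refine (sum_le_sum h1).trans ?_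
  rw [sum_const, card_range, nsmul_eq_mul, mul_comm]

end Pool.Agent.H22.AR
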